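import Pool.Agent.Helper82_ASD.GPD
import Pool.Agent.Helper44_ASD.SSD
import Pool.Agent.Helper79_ASO.WTH
import Pool.Agent.Helper83_AT3.CO1

/-!
# Squad ASD, row MXA, part A: orthogonality
-/

open scoped BigOperators

set_option autoImplicit false
set_option linter.unusedSectionVars false

noncomputable section

namespace Pool.Agent.PP.SD.H94

open Pool.Agent.Helper51_AWC Pool.Agent.Helper79_WRA Pool.Agent.PP Pool.Agent.PP.KF
open Pool.Agent.PP.K9 Pool.Agent.PP.K9.H97 Pool.Agent.PP.H75 Pool.Agent.PP.T3 Pool.Agent.PP.SO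
open Pool.Agent.PP.SO.H82 (memC conj_of_mem mem_of_conj prod_eq TT_fwd TT_bwd TT_C)
open Pool.Agent.PP.SD.H82 (bh_sing card_TT pow_m)

attribute [local instance] Ideal.Quotient.field

/-- GPD with the weaker hypotheses (after `Helper82_ASD/GPD.lean`) -/
theorem gpd_w (nsv : NsdStmt) (fuw : FudStmt) (cjt : CjdStmt) (ℓ : ℕ) [Fact ℓ.Prime]
    (M : Ideal (integralClosure ℤ ℂ)) [M.IsMaximal] (hM : (ℓ : integralClosure ℤ ℂ) ∈ M)
    (hℓ : ℓ ≠ 2) (V₀ G : Type) [CommGroup V₀] [Finite V₀] [Group G] [Finite G]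
    (E₀ : Subgroup (MulAut V₀)) (hFr : Fq ℓ V₀ E₀) (B : Bk (FF M) V₀ G) (hSy : Sd ℓ M E₀ B)
    (n m : ℕ) (hPE : PE ℓ n m G) (L : Set (V₀ × V₀ × ℤ)) (x x' : V₀)
    (hL1 : Rw E₀ (p1 L ⊔ Subgroup.zpowers x)) (hL2 : Rw E₀ (p2 L ⊔ Subgroup.zpowers x')) :
    ∑ᶠ w ∈ {w : G × G | ∀ s ∈ L, w.2 * B.i s.2.1 * w.2⁻¹ = B.i s.1 * (w.1 ^ m) ^ s.2.2},
      fc B (p1 L) x w.1 * fc B (p2 L) x'⁻¹ (w.2⁻¹ * w.1⁻¹ * w.2) =
    (Nat.card (B.C (p1 L)) : ℂ) * Nat.card (B.C (p2 L)) *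
      (ℓ ^ 2 * B.D (p1 L ⊔ Subgroup.zpowers x) ^ 2 /
        (Nat.card (B.C (p1 L ⊔ Subgroup.zpowers x)) : ℂ) ^ 2) *
      {τ : MulAut V₀ | τ ∈ E₀ ∧ τ x = x' ∧ ∀ s ∈ L, τ (s.1 * x ^ s.2.2) = s.2.1}.ncard := by
  classical
  have := Fintype.ofFinite G
  have := Fintype.ofFinite (B.C (p1 L))
  have := Fintype.ofFinite (B.C (p2 L))
  obtain ⟨W, hW⟩ : ∃ W, W = p1 L ⊔ Subgroup.zpowers x := ⟨_, rfl⟩
  obtain ⟨W', hW'⟩ : ∃ W', W' = p2 L ⊔ Subgroup.zpowers x' := ⟨_, rfl⟩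
  have hx : x ∈ W := by
    rw [hW]; exact Subgroup.mem_sup_right (Subgroup.mem_zpowers x)
  have hx' : x' ∈ W' := by
    rw [hW']; exact Subgroup.mem_sup_right (Subgroup.mem_zpowers x')
  have hWne : Rw E₀ W := by
    rw [hW]
    exact hL1
  have hWne' : Rw E₀ W' := by
    rw [hW']
    exact hL2
  have hreg : ∀ (U : Subgroup V₀) (s : G), bh B U s ≠ 0 → s ∈ B.C U ∧ Reg ℓ s := by
    intro U s hs
    constructor
    · by_contra h
      exact hs (SO.H10L.bh_supp B U s h)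
    · by_contra h
      exact hs (bh_sing hM hSy.toSb U s h)
  -- the terms
  have key : ∀ s w : G, (if (∀ r ∈ L, w * B.i r.2.1 * w⁻¹ =
        B.i r.1 * ((B.i x * s) ^ m) ^ r.2.2) then
      bh B W s * bh B W' (B.i x' * (w⁻¹ * (s⁻¹ * (B.i x)⁻¹) * w)) else 0) =
      if w ∈ SO.H82.TT B L x x' then bh B W s * bh B W' (w⁻¹ * s⁻¹ * w) else 0 := by
    intro s w
    by_cases hs : bh B W s = 0
    · rw [hs, zero_mul, zero_mul, ite_self, ite_self]
    obtain ⟨hsC, hsR⟩ := hreg W s hs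
    have hp : (B.i x * s) ^ m = B.i x := pow_m hFr hPE hx hsC hsR
    have hcond : (∀ r ∈ L, w * B.i r.2.1 * w⁻¹ = B.i r.1 * ((B.i x * s) ^ m) ^ r.2.2) ↔
        ∀ r ∈ L, w * B.i r.2.1 * w⁻¹ = B.i (r.1 * x ^ r.2.2) := by
      rw [hp]
      constructor
      · intro h r hr
        rw [h r hr, map_mul, map_zpow]
      · intro h r hr
        rw [h r hr, map_mul, map_zpow]
    by_cases hc : ∀ r ∈ L, w * B.i r.2.1 * w⁻¹ = B.i (r.1 * x ^ r.2.2)
    · rw [if_pos (hcond.2 hc)]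
      by_cases hxx : w * B.i x' * w⁻¹ = B.i x
      · rw [if_pos (show w ∈ SO.H82.TT B L x x' from ⟨hxx, hc⟩)]
        congr 2
        have h1 : Commute (B.i x) s := (memC B W s).1 hsC x hx
        have h2 : B.i x' = w⁻¹ * B.i x * w := by rw [← hxx]; group
        have h3 : B.i x * (s⁻¹ * (B.i x)⁻¹) = s⁻¹ := by
          rw [← mul_assoc, (h1.inv_right).eq, mul_inv_cancel_right]
        rw [h2]
        calc w⁻¹ * B.i x * w * (w⁻¹ * (s⁻¹ * (B.i x)⁻¹) * w)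
            = w⁻¹ * (B.i x * (s⁻¹ * (B.i x)⁻¹)) * w := by group
          _ = w⁻¹ * s⁻¹ * w := by rw [h3]
      · rw [if_neg (show w ∉ SO.H82.TT B L x x' from fun h => hxx h.1)]
        rw [mul_eq_zero]
        right
        by_contra hne
        obtain ⟨hC', hR'⟩ := hreg W' _ hne
        obtain ⟨s', hs'⟩ : ∃ s', s' = B.i x' * (w⁻¹ * (s⁻¹ * (B.i x)⁻¹) * w) := ⟨_, rfl⟩
        rw [← hs'] at hC' hR'
        have h1 : B.i x'⁻¹ * s' = w⁻¹ * (s⁻¹ * (B.i x)⁻¹) * w := by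
          rw [hs', map_inv, inv_mul_cancel_left]
        have h2 : (B.i x'⁻¹ * s') ^ m = B.i x'⁻¹ :=
          pow_m hFr hPE (W'.inv_mem hx') hC' hR'
        have h3 : (s⁻¹ * (B.i x)⁻¹) ^ m = (B.i x)⁻¹ := by
          rw [← mul_inv_rev, inv_pow, hp]
        have h4 : (w⁻¹ * (s⁻¹ * (B.i x)⁻¹) * w) ^ m = w⁻¹ * (B.i x)⁻¹ * w := by
          have h5 := conj_pow (a := w⁻¹) (b := s⁻¹ * (B.i x)⁻¹) (i := m)
          rw [inv_inv, h3] at h5
          exact h5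
        rw [h1, h4, map_inv] at h2
        apply hxx
        have h6 : B.i x' = w⁻¹ * B.i x * w := by
          rw [← inv_inj, ← h2]
          group
        rw [h6]
        group
    · rw [if_neg (fun h => hc (hcond.1 h)), if_neg (fun h => hc h.2)]
  -- the functions `fc`
  have hf1 : ∀ g, fc B (p1 L) x g = (Nat.card (B.C W) : ℂ)⁻¹ *
      ∑ z : B.C (p1 L), bh B W ((B.i x)⁻¹ * ((z : G)⁻¹ * g * z)) := by
    intro g
    unfold fc
    rw [finsum_eq_sum_of_fintype, hW]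
  have hf2 : ∀ g, fc B (p2 L) x'⁻¹ g = (Nat.card (B.C W') : ℂ)⁻¹ *
      ∑ z : B.C (p2 L), bh B W' (B.i x' * ((z : G)⁻¹ * g * z)) := by
    intro g
    unfold fc
    rw [finsum_eq_sum_of_fintype, Subgroup.zpowers_inv, ← hW', map_inv, inv_inv]
  obtain ⟨K, hK⟩ : ∃ K : ℂ, K = ∑ p : G × G, if p.2 ∈ SO.H82.TT B L x x' then
    bh B W p.1 * bh B W' (p.2⁻¹ * p.1⁻¹ * p.2) else 0 := ⟨_, rfl⟩
  -- the substitution
  have hsub : ∀ (z : B.C (p1 L)) (z' : B.C (p2 L)), (∑ w : G × G,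
      if w ∈ {w : G × G | ∀ s ∈ L, w.2 * B.i s.2.1 * w.2⁻¹ = B.i s.1 * (w.1 ^ m) ^ s.2.2} then
        bh B W ((B.i x)⁻¹ * ((z : G)⁻¹ * w.1 * z)) *
          bh B W' (B.i x' * ((z' : G)⁻¹ * (w.2⁻¹ * w.1⁻¹ * w.2) * z')) else 0) = K := by
    intro z z'
    let e : G × G ≃ G × G :=
      { toFun := fun p => ((z : G) * (B.i x * p.1) * (z : G)⁻¹, (z : G) * p.2 * (z' : G)⁻¹)
        invFun := fun p => ((B.i x)⁻¹ * ((z : G)⁻¹ * p.1 * z), (z : G)⁻¹ * p.2 * z')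
        left_inv := fun p => Prod.ext (by dsimp only; group) (by dsimp only; group)
        right_inv := fun p => Prod.ext (by dsimp only; group) (by dsimp only; group) }
    rw [hK, ← e.sum_comp]
    refine Finset.sum_congr rfl fun p _ => ?_
    rw [← key p.1 p.2]
    have e1 : (e p).1 = (z : G) * (B.i x * p.1) * (z : G)⁻¹ := rfl
    have e2 : (e p).2 = (z : G) * p.2 * (z' : G)⁻¹ := rfl
    have hc : (e p ∈ {w : G × G | ∀ s ∈ L, w.2 * B.i s.2.1 * w.2⁻¹ =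
        B.i s.1 * (w.1 ^ m) ^ s.2.2}) ↔ ∀ r ∈ L, p.2 * B.i r.2.1 * p.2⁻¹ =
        B.i r.1 * ((B.i x * p.1) ^ m) ^ r.2.2 := by
      rw [Set.mem_setOf_eq, e1, e2]
      refine forall₂_congr fun r hr => ?_
      have h1 : r.1 ∈ p1 L := Subgroup.subset_closure ⟨r, hr, rfl⟩
      have h2 : r.2.1 ∈ p2 L := Subgroup.subset_closure ⟨r, hr, rfl⟩
      have h3 := conj_of_mem B z.2 h1
      have h4 := conj_of_mem B ((B.C (p2 L)).inv_mem z'.2) h2
      rw [inv_inv] at h4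
      have h5 : (z : G) * p.2 * (z' : G)⁻¹ * B.i r.2.1 * ((z : G) * p.2 * (z' : G)⁻¹)⁻¹ =
          (z : G) * (p.2 * ((z' : G)⁻¹ * B.i r.2.1 * z') * p.2⁻¹) * (z : G)⁻¹ := by group
      have h6 : ((z : G) * (B.i x * p.1) * (z : G)⁻¹) ^ m =
          (z : G) * (B.i x * p.1) ^ m * (z : G)⁻¹ := conj_pow
      rw [h5, h4, h6, conj_zpow]
      constructor
      · intro h
        have h7 : p.2 * B.i r.2.1 * p.2⁻¹ = (z : G)⁻¹ * ((z : G) *
          (p.2 * B.i r.2.1 * p.2⁻¹) * (z : G)⁻¹) * z := by group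
        rw [h7, h]
        have h8 : (z : G)⁻¹ * (B.i r.1 * ((z : G) * ((B.i x * p.1) ^ m) ^ r.2.2 * (z : G)⁻¹)) * z =
          ((z : G)⁻¹ * B.i r.1 * z) * ((B.i x * p.1) ^ m) ^ r.2.2 := by group
        rw [h8]
        congr 1
        conv_lhs => rw [← h3]
        group
      · intro h
        rw [h]
        conv_rhs => rw [← h3]
        group
    by_cases h : ∀ r ∈ L, p.2 * B.i r.2.1 * p.2⁻¹ = B.i r.1 * ((B.i x * p.1) ^ m) ^ r.2.2
    · rw [if_pos (hc.2 h), if_pos h, e1, e2]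
      congr 2
      · group
      · group
    · rw [if_neg (fun h' => h (hc.1 h')), if_neg h]
  -- the value of `K`
  have hKval : K = (Nat.card {w : G // w ∈ SO.H82.TT B L x x' ∧ H75.cj w (B.b W') = B.b W} : ℂ) *
      bh B W 1 := by
    rw [hK, Fintype.sum_prod_type_right]
    have h1 : ∀ w : G, (∑ s : G, if w ∈ SO.H82.TT B L x x' then
        bh B W s * bh B W' (w⁻¹ * s⁻¹ * w) else 0) =
        if w ∈ SO.H82.TT B L x x' ∧ H75.cj w (B.b W') = B.b W then bh B W 1 else 0 := by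
      intro w
      by_cases hw : w ∈ SO.H82.TT B L x x'
      · simp only [if_pos hw]
        have hC : ∀ y, y ∈ B.C W ↔ w⁻¹ * y * w ∈ B.C W' := by
          rw [hW, hW']
          exact TT_C hw
        rw [← finsum_eq_sum_of_fintype, prod_eq hSy.toSb hC]
        by_cases hb : H75.cj w (B.b W') = B.b W
        · rw [if_pos hb, if_pos ⟨hw, hb⟩]
        · rw [if_neg hb, if_neg (fun h => hb h.2)]
      · rw [if_neg (fun h => hw h.1)]
        refine Finset.sum_eq_zero fun s _ => ?_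
        rw [if_neg hw]
    rw [Finset.sum_congr rfl fun w _ => h1 w, ← Finset.sum_filter, Finset.sum_const, nsmul_eq_mul,
      Nat.card_eq_fintype_card, Fintype.card_subtype]
  have hcard := card_TT (B := B) (L := L) (x := x) (x' := x') fuw cjt hM hℓ hFr hSy.toSb
    (by rw [← hW']; exact hWne')
  rw [← hW, ← hW'] at hcard
  have hbh : bh B W 1 = ℓ ^ 2 * B.D W ^ 2 / Nat.card (B.C W) :=
    (nsv ℓ M hM hℓ V₀ G E₀ hFr B hSy W hWne).2.2.2.2.2.2
  -- assembly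
  rw [← hW, finsum_mem_def, finsum_eq_sum_of_fintype]
  have hexp : ∀ w : G × G, Set.indicator {w : G × G | ∀ s ∈ L, w.2 * B.i s.2.1 * w.2⁻¹ =
      B.i s.1 * (w.1 ^ m) ^ s.2.2} (fun w : G × G => fc B (p1 L) x w.1 *
        fc B (p2 L) x'⁻¹ (w.2⁻¹ * w.1⁻¹ * w.2)) w =
      (Nat.card (B.C W) : ℂ)⁻¹ * (Nat.card (B.C W') : ℂ)⁻¹ * ∑ z : B.C (p1 L),
        ∑ z' : B.C (p2 L),
        if w ∈ {w : G × G | ∀ s ∈ L, w.2 * B.i s.2.1 * w.2⁻¹ = B.i s.1 * (w.1 ^ m) ^ s.2.2} then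
        bh B W ((B.i x)⁻¹ * ((z : G)⁻¹ * w.1 * z)) *
          bh B W' (B.i x' * ((z' : G)⁻¹ * (w.2⁻¹ * w.1⁻¹ * w.2) * z')) else 0 := by
    intro w
    rw [Set.indicator_apply]
    by_cases h : w ∈ {w : G × G | ∀ s ∈ L, w.2 * B.i s.2.1 * w.2⁻¹ = B.i s.1 * (w.1 ^ m) ^ s.2.2}
    · simp only [if_pos h]
      rw [hf1, hf2, mul_mul_mul_comm, Finset.sum_mul_sum]
    · simp only [if_neg h, Finset.sum_const_zero, mul_zero]
  rw [Finset.sum_congr rfl fun w _ => hexp w, ← Finset.mul_sum, Finset.sum_comm]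
  have hin : ∀ z : B.C (p1 L), (∑ w : G × G, ∑ z' : B.C (p2 L),
        if w ∈ {w : G × G | ∀ s ∈ L, w.2 * B.i s.2.1 * w.2⁻¹ = B.i s.1 * (w.1 ^ m) ^ s.2.2} then
        bh B W ((B.i x)⁻¹ * ((z : G)⁻¹ * w.1 * z)) *
          bh B W' (B.i x' * ((z' : G)⁻¹ * (w.2⁻¹ * w.1⁻¹ * w.2) * z')) else 0) =
      Nat.card (B.C (p2 L)) * K := by
    intro z
    rw [Finset.sum_comm, Finset.sum_congr rfl fun z' _ => hsub z z', Finset.sum_const,
      nsmul_eq_mul, Nat.card_eq_fintype_card]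
    rfl
  rw [Finset.sum_congr rfl fun z _ => hin z, Finset.sum_const, nsmul_eq_mul, hKval, hcard, hbh]
  have hn1 : (Nat.card (B.C W) : ℂ) ≠ 0 := by
    exact_mod_cast (Nat.card_pos (α := B.C W)).ne'
  have hn2 : (Nat.card (B.C W') : ℂ) ≠ 0 := by
    exact_mod_cast (Nat.card_pos (α := B.C W')).ne'
  have hcu : (Finset.univ : Finset (B.C (p1 L))).card = Nat.card (B.C (p1 L)) := by
    rw [Nat.card_eq_fintype_card]
    rfl
  rw [hcu]
  push_cast
  field_simp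


section orth

variable {V₀ G : Type} [CommGroup V₀] [Finite V₀] [Group G] {M : Ideal (integralClosure ℤ ℂ)}
  [M.IsMaximal]

/-- the sum of the values of `χ` at `i(y) s` -/
def VV (B : Bk (FF M) V₀ G) (W : Subgroup V₀) (y : V₀) (χ : G → ℂ) : ℂ :=
  ∑ᶠ s, bh B (W ⊔ Subgroup.zpowers y) s * χ (B.i y * s)

/-- characters of `C` extended by zero are invariant under `C` -/
theorem chi_conj {C : Subgroup G} {χ : G → ℂ} (hs : ∀ g, g ∉ C → χ g = 0)
    (hi : (fun t : C => χ t) ∈ Irr C) {z : G} (hz : z ∈ C) (g : G) :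
    χ (z * g * z⁻¹) = χ g := by
  by_cases hg : g ∈ C
  · exact irr_conj hi (⟨g, hg⟩ : C) (⟨z, hz⟩ : C)
  · rw [hs g hg, hs]
    intro h
    apply hg
    have h1 := C.mul_mem (C.mul_mem (C.inv_mem hz) h) hz
    have h2 : z⁻¹ * (z * g * z⁻¹) * z = g := by group
    rwa [h2] at h1

variable [Fintype G]

theorem vv_cv (B : Bk (FF M) V₀ G) (W : Subgroup V₀) (y : V₀) {χ : G → ℂ}
    (hs : ∀ g, g ∉ B.C W → χ g = 0) (hi : (fun t : B.C W => χ t) ∈ Irr (B.C W)) :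
    VV B W y χ = (Nat.card (B.C (W ⊔ Subgroup.zpowers y)) : ℂ) / Nat.card (B.C W) *
      (SO.cv (fc B W y) χ * χ 1) := by
  classical
  have i1 := Fintype.ofFinite (B.C W)
  have hk : (Nat.card (B.C (W ⊔ Subgroup.zpowers y)) : ℂ) ≠ 0 := by
    exact_mod_cast Nat.card_pos.ne'
  have hc : (Nat.card (B.C W) : ℂ) ≠ 0 := by exact_mod_cast Nat.card_pos.ne'
  have h1 : χ 1 ≠ 0 := SO.H79.one_sub _ hi
  have h2 : SO.cv (fc B W y) χ * χ 1 = ∑ g : G, fc B W y g * χ g := by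
    unfold SO.cv
    rw [div_mul_cancel₀ _ h1, finsum_eq_sum_of_fintype]
  have h3 : (Nat.card (B.C (W ⊔ Subgroup.zpowers y)) : ℂ) * ∑ g : G, fc B W y g * χ g =
      ∑ g : G, ∑ z : B.C W, bh B (W ⊔ Subgroup.zpowers y)
        ((B.i y)⁻¹ * ((z : G)⁻¹ * g * z)) * χ g := by
    rw [Finset.mul_sum]
    refine Finset.sum_congr rfl fun g _ => ?_
    rw [← mul_assoc, ← H79.fc_sum, Finset.sum_mul]
  have h4 : ∀ z : B.C W, ∑ g : G, bh B (W ⊔ Subgroup.zpowers y)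
        ((B.i y)⁻¹ * ((z : G)⁻¹ * g * z)) * χ g = VV B W y χ := by
    intro z
    unfold VV
    rw [finsum_eq_sum_of_fintype]
    let e : G ≃ G :=
      { toFun := fun s => (z : G) * (B.i y * s) * (z : G)⁻¹
        invFun := fun g => (B.i y)⁻¹ * ((z : G)⁻¹ * g * z)
        left_inv := fun s => by dsimp only; group
        right_inv := fun s => by dsimp only; group }
    rw [← e.sum_comp]
    refine Finset.sum_congr rfl fun s _ => ?_
    have e1 : e s = (z : G) * (B.i y * s) * (z : G)⁻¹ := rfl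
    rw [e1, chi_conj hs hi z.2]
    congr 2
    group
  rw [Finset.sum_comm, Finset.sum_congr rfl fun z _ => h4 z, Finset.sum_const, Finset.card_univ,
    nsmul_eq_mul, ← Nat.card_eq_fintype_card] at h3
  rw [h2, div_mul_eq_mul_div, h3, mul_div_cancel_left₀ _ hc]

theorem bh_star (B : Bk (FF M) V₀ G) (W : Subgroup V₀) (s : G) :
    starRingEnd ℂ (bh B W s) = bh B W s⁻¹ := by
  classical
  have := Fintype.ofFinite (B.C W)
  unfold bh PP.ext0
  by_cases h : s ∈ B.C W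
  · rw [dif_pos h, dif_pos ((B.C W).inv_mem h), T3.H83.eh_star]
    rfl
  · rw [dif_neg h, dif_neg (fun h' => h ((B.C W).inv_mem_iff.1 h')), map_zero]

theorem bh_cl (B : Bk (FF M) V₀ G) (W : Subgroup V₀) {z : G} (hz : z ∈ B.C W) (s : G) :
    bh B W (z * s * z⁻¹) = bh B W s := by
  classical
  have := Fintype.ofFinite (B.C W)
  unfold bh PP.ext0
  by_cases h : s ∈ B.C W
  · have h' : z * s * z⁻¹ ∈ B.C W := (B.C W).mul_mem ((B.C W).mul_mem hz h) ((B.C W).inv_mem hz)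
    rw [dif_pos h, dif_pos h']
    exact K9.H25.eh_cl M _ (⟨s, h⟩ : B.C W) ⟨z, hz⟩
  · rw [dif_neg h, dif_neg]
    intro h'
    apply h
    have h1 := (B.C W).mul_mem ((B.C W).mul_mem ((B.C W).inv_mem hz) h') hz
    have h2 : z⁻¹ * (z * s * z⁻¹) * z = s := by group
    rwa [h2] at h1

theorem fc_star (B : Bk (FF M) V₀ G) (W : Subgroup V₀) (y : V₀) (g : G) :
    starRingEnd ℂ (fc B W y g) = fc B W y⁻¹ g⁻¹ := by
  classical
  have i1 := Fintype.ofFinite (B.C W)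
  unfold fc
  rw [map_mul, map_inv₀, map_natCast, Subgroup.zpowers_inv, finsum_eq_sum_of_fintype,
    finsum_eq_sum_of_fintype, map_sum]
  congr 1
  refine Finset.sum_congr rfl fun z _ => ?_
  rw [bh_star]
  have hy : B.i y ∈ B.C (W ⊔ Subgroup.zpowers y) := SO.H3.i_mem B _ y
  rw [← bh_cl B _ hy]
  congr 1
  rw [map_inv]
  group

theorem cv_star (B : Bk (FF M) V₀ G) (W : Subgroup V₀) (y : V₀) {χ : G → ℂ}
    (hs : ∀ g, g ∉ B.C W → χ g = 0) (hi : (fun t : B.C W => χ t) ∈ Irr (B.C W)) :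
    starRingEnd ℂ (SO.cv (fc B W y) χ) = SO.cv (fc B W y⁻¹) χ := by
  unfold SO.cv
  rw [map_div₀, H79.ch_star hs hi, inv_one, finsum_eq_sum_of_fintype, finsum_eq_sum_of_fintype,
    map_sum]
  congr 1
  rw [← Equiv.sum_comp (Equiv.inv G)]
  refine Finset.sum_congr rfl fun g _ => ?_
  rw [map_mul, fc_star, H79.ch_star hs hi]
  simp

/-- Parseval -/
theorem par (B : Bk (FF M) V₀ G) (W : Subgroup V₀) (x x' : V₀)
    (h0 : ∀ χ : G → ℂ, (∀ x, x ∉ B.C W → χ x = 0) → (fun t : B.C W => χ t) ∈ Irr (B.C W) →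
      χ ∉ Ch B W → ∀ c, SO.cv (fc B W c) χ = 0) :
    ∑ χ ∈ (H79.ch_finite B W).toFinset, (χ 1) ^ 2 * (SO.cv (fc B W x) χ * SO.cv (fc B W x'⁻¹) χ) =
      (Nat.card (B.C W) : ℂ) * ∑ g : G, fc B W x g * fc B W x'⁻¹ g⁻¹ := by
  classical
  have hc : (Nat.card (B.C W) : ℂ) ≠ 0 := by exact_mod_cast Nat.card_pos.ne'
  have h1 : ∀ g : G, fc B W x g * fc B W x'⁻¹ g⁻¹ = ∑ χ ∈ (H79.ch_finite B W).toFinset,
      (SO.cv (fc B W x'⁻¹) χ * (χ 1 / Nat.card (B.C W))) * (fc B W x g * χ g) := by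
    intro g
    rw [H79.fc_expand B W x'⁻¹ (fun χ a b c => h0 χ a b c _) g⁻¹, Finset.mul_sum]
    refine Finset.sum_congr rfl fun χ _ => ?_
    rw [inv_inv]
    ring
  rw [Finset.sum_congr rfl fun g _ => h1 g, Finset.sum_comm, Finset.mul_sum]
  refine Finset.sum_congr rfl fun χ hχ => ?_
  rw [Set.Finite.mem_toFinset] at hχ
  have h2 : χ 1 ≠ 0 := SO.H79.one_sub _ hχ.2.1
  have h3 : ∑ g : G, fc B W x g * χ g = SO.cv (fc B W x) χ * χ 1 := by
    unfold SO.cv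
    rw [div_mul_cancel₀ _ h2, finsum_eq_sum_of_fintype]
  rw [← Finset.mul_sum, h3]
  field_simp

/-- the shift by an element of `W` -/
theorem vv_shift (B : Bk (FF M) V₀ G) (W : Subgroup V₀) {c : V₀} (hc : c ∈ W) (y : V₀)
    {χ : G → ℂ} (hχ : χ ∈ Ch B W) : SO.cv (fc B W c) χ * VV B W y χ = VV B W (c * y) χ := by
  classical
  have i1 := Fintype.ofFinite (B.C W)
  have hk : (Nat.card (B.C W) : ℂ) ≠ 0 := by exact_mod_cast Nat.card_pos.ne'
  have h1 : χ 1 ≠ 0 := SO.H79.one_sub _ hχ.2.1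
  have hic : B.i c ∈ B.C W := SO.H3.i_mem B W c
  -- the central element `i(c)`
  have hcen : ∀ g : G, g ∈ B.C W → χ (B.i c * g) = χ (B.i c) * χ g / χ 1 := by
    intro g hg
    have h2 := H79.conj_sum hχ.2.1 (⟨B.i c, hic⟩ : B.C W) (⟨g, hg⟩ : B.C W)
    have h3 : ∀ z : B.C W, z⁻¹ * (⟨B.i c, hic⟩ : B.C W) * z = ⟨B.i c, hic⟩ := by
      intro z
      apply Subtype.ext
      change (z : G)⁻¹ * B.i c * z = B.i c
      have h4 : B.i c * z = z * B.i c := (memC B W z).1 z.2 c hc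
      rw [mul_assoc, h4, inv_mul_cancel_left]
    rw [Finset.sum_congr rfl fun z _ => by rw [h3 z], Finset.sum_const, Finset.card_univ,
      nsmul_eq_mul] at h2
    have h5 : (Fintype.card (B.C W) : ℂ) ≠ 0 := by exact_mod_cast Fintype.card_ne_zero
    exact mul_left_cancel₀ h5 h2
  have hwc : W ⊔ Subgroup.zpowers c = W := sup_eq_left.2 ((Subgroup.zpowers_le).2 hc)
  have hws : W ⊔ Subgroup.zpowers (c * y) = W ⊔ Subgroup.zpowers y := by
    apply le_antisymm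
    · refine sup_le le_sup_left ((Subgroup.zpowers_le).2 ?_)
      exact Subgroup.mul_mem _ (Subgroup.mem_sup_left hc)
        (Subgroup.mem_sup_right (Subgroup.mem_zpowers y))
    · refine sup_le le_sup_left ((Subgroup.zpowers_le).2 ?_)
      have h2 : c * y ∈ W ⊔ Subgroup.zpowers (c * y) :=
        Subgroup.mem_sup_right (Subgroup.mem_zpowers _)
      have h3 : c⁻¹ ∈ W ⊔ Subgroup.zpowers (c * y) :=
        Subgroup.mem_sup_left (W.inv_mem hc)
      have h4 := Subgroup.mul_mem _ h3 h2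
      rwa [inv_mul_cancel_left] at h4
  -- the value of `cv`
  have hcv : SO.cv (fc B W c) χ = χ (B.i c) / χ 1 := by
    have h2 := vv_cv B W c hχ.1 hχ.2.1
    rw [hwc, div_self hk, one_mul] at h2
    have h3 : VV B W c χ = χ (B.i c) := by
      unfold VV
      rw [hwc, finsum_eq_sum_of_fintype]
      have h4 : ∀ s : G, bh B W s * χ (B.i c * s) = χ (B.i c) / χ 1 * (bh B W s * χ s) := by
        intro s
        by_cases hs : s ∈ B.C W
        · rw [hcen s hs]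
          ring
        · rw [SO.H3.bh_supp B W hs, zero_mul, zero_mul, mul_zero]
      rw [Finset.sum_congr rfl fun s _ => h4 s, ← Finset.mul_sum]
      have h5 : ∑ s : G, bh B W s * χ s = χ 1 := by
        rw [← finsum_eq_sum_of_fintype, sum_sub (B.C W) _
          (fun x hx => by rw [SO.H3.bh_supp B W hx, zero_mul]), finsum_eq_sum_of_fintype]
        have h6 := K9.H25.eh_chv M (fun t : B.C W => B.b W t) hχ.2.1
        rw [if_pos hχ.2] at h6
        refine Eq.trans ?_ h6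
        refine Finset.sum_congr rfl fun t _ => ?_
        unfold bh PP.ext0
        rw [dif_pos t.2]
      rw [h5, div_mul_cancel₀ _ h1]
    rw [h3] at h2
    rw [eq_div_iff h1, ← h2]
  rw [hcv]
  unfold VV
  rw [hws, finsum_eq_sum_of_fintype, finsum_eq_sum_of_fintype, Finset.mul_sum]
  refine Finset.sum_congr rfl fun s _ => ?_
  by_cases hs : s ∈ B.C (W ⊔ Subgroup.zpowers y)
  · have hs' : B.i y * s ∈ B.C W :=
      (B.C W).mul_mem (SO.H3.i_mem B W y) (SO.H3.C_anti B le_sup_left hs)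
    rw [map_mul, mul_assoc (B.i c), hcen _ hs']
    ring
  · rw [SO.H3.bh_supp B _ hs, zero_mul, zero_mul, mul_zero]

end orth

/-- the orthogonality relation -/
theorem orth (nsd : NsdStmt) (fud : FudStmt) (cjd : CjdStmt) (fcd : FcdStmt) (ℓ : ℕ)
    [Fact ℓ.Prime] (M : Ideal (integralClosure ℤ ℂ)) [M.IsMaximal]
    (hM : (ℓ : integralClosure ℤ ℂ) ∈ M) (hℓ : ℓ ≠ 2) (V₀ G : Type) [CommGroup V₀] [Finite V₀]
    [Group G] [Fintype G] (E₀ : Subgroup (MulAut V₀)) (hFr : Fq ℓ V₀ E₀) (B : Bk (FF M) V₀ G)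
    (hB : Sd ℓ M E₀ B) (n m : ℕ) (hPE : PE ℓ n m G) (W : Subgroup V₀) (x x' : V₀)
    (hW : Rw E₀ (W ⊔ Subgroup.zpowers x)) (hW' : Rw E₀ (W ⊔ Subgroup.zpowers x')) :
    ∑ χ ∈ (H79.ch_finite B W).toFinset, VV B W x χ * starRingEnd ℂ (VV B W x' χ) =
      (Nat.card (B.C (W ⊔ Subgroup.zpowers x')) : ℂ) *
        (ℓ ^ 2 * B.D (W ⊔ Subgroup.zpowers x) ^ 2 / Nat.card (B.C (W ⊔ Subgroup.zpowers x))) *
        {τ : MulAut V₀ | τ ∈ E₀ ∧ τ x = x' ∧ ∀ p ∈ W, τ p = p}.ncard := by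
  classical
  have i1 := Fintype.ofFinite (B.C W)
  have hc : (Nat.card (B.C W) : ℂ) ≠ 0 := by exact_mod_cast Nat.card_pos.ne'
  have hc1 : (Nat.card (B.C (W ⊔ Subgroup.zpowers x)) : ℂ) ≠ 0 := by
    exact_mod_cast Nat.card_pos.ne'
  have h0 := (fcd ℓ M hM V₀ G E₀ hFr B hB.toSb W).1
  -- the conditions
  obtain ⟨L, hL⟩ : ∃ L : Set (V₀ × V₀ × ℤ), L = {s | ∃ p ∈ W, s = (p, p, 0)} := ⟨_, rfl⟩
  have hp1 : p1 L = W := by
    unfold p1
    have : {p | ∃ s ∈ L, s.1 = p} = (W : Set V₀) := by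
      ext p
      constructor
      · rintro ⟨s, hs, rfl⟩
        rw [hL] at hs
        obtain ⟨q, hq, rfl⟩ := hs
        exact hq
      · intro hp
        refine ⟨(p, p, 0), ?_, rfl⟩
        rw [hL]
        exact ⟨p, hp, rfl⟩
    rw [this, Subgroup.closure_eq]
  have hp2 : p2 L = W := by
    unfold p2
    have : {p | ∃ s ∈ L, s.2.1 = p} = (W : Set V₀) := by
      ext p
      constructor
      · rintro ⟨s, hs, rfl⟩
        rw [hL] at hs
        obtain ⟨q, hq, rfl⟩ := hs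
        exact hq
      · intro hp
        refine ⟨(p, p, 0), ?_, rfl⟩
        rw [hL]
        exact ⟨p, hp, rfl⟩
    rw [this, Subgroup.closure_eq]
  have h1 := gpd_w nsd fud cjd ℓ M hM hℓ V₀ G E₀ hFr B hB n m hPE L x x'
    (by rw [hp1]; exact hW) (by rw [hp2]; exact hW')
  rw [hp1, hp2] at h1
  have hcond : ∀ w : G × G, (∀ s ∈ L, w.2 * B.i s.2.1 * w.2⁻¹ = B.i s.1 * (w.1 ^ m) ^ s.2.2) ↔
      w.2 ∈ B.C W := by
    intro w
    constructor
    · intro h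
      apply mem_of_conj
      intro v hv
      have h2 := h (v, v, 0) (by rw [hL]; exact ⟨v, hv, rfl⟩)
      simpa using h2
    · intro h s hs
      rw [hL] at hs
      obtain ⟨p, hp, rfl⟩ := hs
      have h2 := conj_of_mem B h hp
      simpa using h2
  have hset : {τ : MulAut V₀ | τ ∈ E₀ ∧ τ x = x' ∧ ∀ s ∈ L, τ (s.1 * x ^ s.2.2) = s.2.1} =
      {τ : MulAut V₀ | τ ∈ E₀ ∧ τ x = x' ∧ ∀ p ∈ W, τ p = p} := by
    ext τ
    constructor
    · rintro ⟨a, b, h⟩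
      refine ⟨a, b, fun p hp => ?_⟩
      have h2 := h (p, p, 0) (by rw [hL]; exact ⟨p, hp, rfl⟩)
      simpa using h2
    · rintro ⟨a, b, h⟩
      refine ⟨a, b, fun s hs => ?_⟩
      rw [hL] at hs
      obtain ⟨p, hp, rfl⟩ := hs
      have h2 := h p hp
      simpa using h2
  rw [hset] at h1
  have hlhs : ∑ᶠ w ∈ {w : G × G | ∀ s ∈ L, w.2 * B.i s.2.1 * w.2⁻¹ =
      B.i s.1 * (w.1 ^ m) ^ s.2.2}, fc B W x w.1 * fc B W x'⁻¹ (w.2⁻¹ * w.1⁻¹ * w.2) =
      (Nat.card (B.C W) : ℂ) * ∑ g : G, fc B W x g * fc B W x'⁻¹ g⁻¹ := by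
    rw [SO.H59.finsum_mem_ite, Fintype.sum_prod_type_right]
    have h2 : ∀ u : G, (∑ g : G, if (∀ s ∈ L, (g, u).2 * B.i s.2.1 * (g, u).2⁻¹ =
        B.i s.1 * ((g, u).1 ^ m) ^ s.2.2) then
        fc B W x (g, u).1 * fc B W x'⁻¹ ((g, u).2⁻¹ * (g, u).1⁻¹ * (g, u).2) else 0) =
        if u ∈ B.C W then ∑ g : G, fc B W x g * fc B W x'⁻¹ g⁻¹ else 0 := by
      intro u
      by_cases hu : u ∈ B.C W
      · rw [if_pos hu]
        refine Finset.sum_congr rfl fun g _ => ?_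
        rw [if_pos ((hcond (g, u)).2 hu)]
        congr 1
        have h3 := SO.H3.fc_cl B W x'⁻¹ (⟨u, hu⟩⁻¹ : B.C W) g⁻¹
        rw [← h3]
        congr 1
        change u⁻¹ * g⁻¹ * u = u⁻¹ * g⁻¹ * (u⁻¹)⁻¹
        rw [inv_inv]
      · rw [if_neg hu]
        refine Finset.sum_eq_zero fun g _ => ?_
        rw [if_neg (fun h => hu ((hcond (g, u)).1 h))]
    rw [Finset.sum_congr rfl fun u _ => h2 u, ← Finset.sum_filter, Finset.sum_const,
      nsmul_eq_mul]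
    congr 2
    rw [Nat.card_eq_fintype_card]
    exact (Fintype.card_subtype _).symm
  rw [hlhs] at h1
  have h2 := par B W x x' h0
  rw [h1] at h2
  have h3 : ∀ χ ∈ (H79.ch_finite B W).toFinset, VV B W x χ * starRingEnd ℂ (VV B W x' χ) =
      ((Nat.card (B.C (W ⊔ Subgroup.zpowers x)) : ℂ) / Nat.card (B.C W) *
        ((Nat.card (B.C (W ⊔ Subgroup.zpowers x')) : ℂ) / Nat.card (B.C W))) *
      ((χ 1) ^ 2 * (SO.cv (fc B W x) χ * SO.cv (fc B W x'⁻¹) χ)) := by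
    intro χ hχ
    rw [Set.Finite.mem_toFinset] at hχ
    rw [vv_cv B W x hχ.1 hχ.2.1, vv_cv B W x' hχ.1 hχ.2.1, map_mul, map_mul, map_div₀,
      map_natCast, map_natCast, cv_star B W x' hχ.1 hχ.2.1, H79.ch_star hχ.1 hχ.2.1, inv_one]
    ring
  rw [Finset.sum_congr rfl h3, ← Finset.mul_sum, h2]
  field_simp

end Pool.Agent.PP.SD.H94
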