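import Pool.Agent.ASD.Stmts4
import Pool.Agent.Helper94_ASD.MXAa

/-!
# Squad ASD, row MXA: `W13` if `c ∈ pL L` and the block of `qL L` has inertial index one
-/

open scoped BigOperators

set_option autoImplicit false
set_option linter.unusedSectionVars false

noncomputable section

namespace Pool.Agent.PP.SD.H94

open Pool.Agent.Helper51_AWC Pool.Agent.Helper79_WRA Pool.Agent.PP Pool.Agent.PP.KF
open Pool.Agent.PP.K9 Pool.Agent.PP.K9.H97 Pool.Agent.PP.H75 Pool.Agent.PP.T3 Pool.Agent.PP.SO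
open Pool.Agent.PP.SD.H44 (rw_mono rw_top D_pos S_sq deg_quot ux_ne)
open Pool.Agent.PP.SO.H59 (ep C_pos map_eq sup_top)

attribute [local instance] Ideal.Quotient.field

section sets

variable {V₀ : Type} [CommGroup V₀] {n : ℕ}

/-- the solutions for the conditions `L'` -/
def AA (E₀ : Subgroup (MulAut V₀)) (L' : Set (V₀ × V₀ × ℤ)) : Set (MulAut V₀ × V₀) :=
  {w | w.1 ∈ E₀ ∧ ∀ s ∈ L', w.1 (s.2.1 * (w.2 ^ s.2.2)⁻¹) = s.1}

theorem p1_Lm (L : Set (SO.SS n V₀)) : p1 (Lm L) = pL L := by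
  unfold p1 pL Lm
  congr 1
  ext p
  constructor
  · rintro ⟨s, ⟨t, ht, rfl⟩, rfl⟩
    exact ⟨t, ht, rfl⟩
  · rintro ⟨t, ht, rfl⟩
    exact ⟨_, ⟨t, ht, rfl⟩, rfl⟩

theorem p2_Lm (L : Set (SO.SS n V₀)) : p2 (Lm L) = qL L := by
  unfold p2 qL Lm
  congr 1
  ext p
  constructor
  · rintro ⟨s, ⟨t, ht, rfl⟩, rfl⟩
    exact ⟨t, ht, rfl⟩
  · rintro ⟨t, ht, rfl⟩
    exact ⟨_, ⟨t, ht, rfl⟩, rfl⟩

theorem p1_Lq (L : Set (SO.SS n V₀)) : p1 (Lq L) = pL L := by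
  unfold p1 pL Lq
  congr 1
  ext p
  constructor
  · rintro ⟨s, ⟨t, ht, rfl⟩, rfl⟩
    exact ⟨t, ht, rfl⟩
  · rintro ⟨t, ht, rfl⟩
    exact ⟨_, ⟨t, ht, rfl⟩, rfl⟩

theorem p2_Lq (L : Set (SO.SS n V₀)) : p2 (Lq L) = qL L := by
  unfold p2 qL Lq
  congr 1
  ext p
  constructor
  · rintro ⟨s, ⟨t, ht, rfl⟩, rfl⟩
    exact ⟨t, ht, rfl⟩
  · rintro ⟨t, ht, rfl⟩
    exact ⟨_, ⟨t, ht, rfl⟩, rfl⟩

/-- the image of the subgroup generated by `p2 L'` and `x` -/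
theorem map_AA [Finite V₀] {E₀ : Subgroup (MulAut V₀)} {L' : Set (V₀ × V₀ × ℤ)} {w : MulAut V₀ × V₀}
    (hw : w ∈ AA E₀ L') : (p2 L' ⊔ Subgroup.zpowers w.2).map w.1.toMonoidHom =
      p1 L' ⊔ Subgroup.zpowers (w.1 w.2) := by
  have h1 : ∀ s ∈ {s : V₀ × V₀ × ℤ | (s.2.1, s.1, -s.2.2) ∈ L'},
      w.1 (s.1 * w.2 ^ s.2.2) = s.2.1 := by
    intro s hs
    have := hw.2 _ hs
    simp only [zpow_neg, inv_inv] at this
    exact this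
  have h2 := map_eq _ w.1 w.2 h1
  have h3 : p1 {s : V₀ × V₀ × ℤ | (s.2.1, s.1, -s.2.2) ∈ L'} = p2 L' := by
    unfold p1 p2
    congr 1
    ext p
    constructor
    · rintro ⟨s, hs, rfl⟩
      exact ⟨_, hs, rfl⟩
    · rintro ⟨s, hs, rfl⟩
      refine ⟨(s.2.1, s.1, -s.2.2), ?_, rfl⟩
      change (s.1, s.2.1, - -s.2.2) ∈ L'
      rw [neg_neg]
      exact hs
  have h4 : p2 {s : V₀ × V₀ × ℤ | (s.2.1, s.1, -s.2.2) ∈ L'} = p1 L' := by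
    unfold p1 p2
    congr 1
    ext p
    constructor
    · rintro ⟨s, hs, rfl⟩
      exact ⟨_, hs, rfl⟩
    · rintro ⟨s, hs, rfl⟩
      refine ⟨(s.2.1, s.1, -s.2.2), ?_, rfl⟩
      change (s.1, s.2.1, - -s.2.2) ∈ L'
      rw [neg_neg]
      exact hs
  rw [h3, h4] at h2
  exact h2

/-- the triples -/
def TR (E₀ : Subgroup (MulAut V₀)) (c d : V₀) (L : Set (SO.SS n V₀)) :
    Set ((MulAut V₀ × V₀) × (MulAut V₀ × V₀) × MulAut V₀) :=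
  {v | v.1 ∈ AA E₀ (Lm L) ∧ v.2.1 ∈ AA E₀ (Lq L) ∧ v.1.2 = d * v.2.1.2 ∧
    (v.2.2 ∈ E₀ ∧ v.2.2 (c * v.1.1 v.1.2) = v.2.1.1 v.2.1.2 ∧ ∀ p ∈ pL L, v.2.2 p = p)}

/-- the bijection -/
def trE (E₀ : Subgroup (MulAut V₀)) (c d : V₀) (L : Set (SO.SS n V₀)) :
    TR E₀ c d L ≃ St E₀ (pL L) × {w : E₀ × E₀ × V₀ | w.1.1 w.2.2 = d * w.2.1.1 (c * w.2.2) ∧
      ∀ s ∈ L, w.1.1 (s.2.2.1 * (w.2.2 ^ (s.2.1 : ℕ))⁻¹) = s.2.2.2 ∧
        w.2.1.1 (s.2.2.1 * (c * w.2.2) ^ (s.1 : ℕ)) = s.2.2.2} where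
  toFun v := (⟨v.1.2.2, v.2.2.2.2.1, v.2.2.2.2.2.2⟩,
    ⟨(⟨v.1.1.1⁻¹, E₀.inv_mem v.2.1.1⟩,
      ⟨v.1.2.1.1⁻¹ * v.1.2.2, E₀.mul_mem (E₀.inv_mem v.2.2.1.1) v.2.2.2.2.1⟩,
      v.1.1.1 v.1.1.2), by
      obtain ⟨⟨w, w', τ⟩, h1, h2, h3, h4, h5, h6⟩ := v
      have h5' : τ (c * w.1 w.2) = w'.1 w'.2 := h5
      refine ⟨?_, fun s hs => ⟨?_, ?_⟩⟩
      · change w.1⁻¹ (w.1 w.2) = d * (w'.1⁻¹ * τ) (c * w.1 w.2)
        rw [MulAut.inv_apply_self, MulAut.mul_apply, h5, MulAut.inv_apply_self]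
        exact h3
      · change w.1⁻¹ (s.2.2.1 * (w.1 w.2 ^ (s.2.1 : ℕ))⁻¹) = s.2.2.2
        have h7 := h1.2 _ ⟨s, hs, rfl⟩
        simp only [zpow_neg, zpow_natCast, inv_inv] at h7
        have h9 : s.2.2.1 * (w.1 w.2 ^ (s.2.1 : ℕ))⁻¹ = w.1 s.2.2.2 := by
          rw [← h7, map_mul, map_pow, mul_inv_cancel_right]
        rw [h9, MulAut.inv_apply_self]
      · change (w'.1⁻¹ * τ) (s.2.2.1 * (c * w.1 w.2) ^ (s.1 : ℕ)) = s.2.2.2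
        have h7 := h2.2 _ ⟨s, hs, rfl⟩
        simp only [zpow_natCast] at h7
        have h8 : τ s.2.2.1 = s.2.2.1 := h6 _ (Subgroup.subset_closure ⟨s, hs, rfl⟩)
        have h9 : τ (s.2.2.1 * (c * w.1 w.2) ^ (s.1 : ℕ)) = w'.1 s.2.2.2 := by
          rw [map_mul, map_pow, h5', h8, ← h7, map_mul, map_inv, map_pow, inv_mul_cancel_right]
        rw [MulAut.mul_apply, h9, MulAut.inv_apply_self]⟩)
  invFun u := ⟨((u.2.1.1.1⁻¹, u.2.1.1.1 u.2.1.2.2),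
    (u.1.1 * u.2.1.2.1.1⁻¹, u.2.1.2.1.1 (c * u.2.1.2.2)), u.1.1), by
      obtain ⟨⟨τ, h1, h2⟩, ⟨⟨σ, hσ⟩, ⟨σ', hσ'⟩, X⟩, h3, h4⟩ := u
      change σ X = d * σ' (c * X) at h3
      refine ⟨⟨E₀.inv_mem hσ, ?_⟩, ⟨E₀.mul_mem h1 (E₀.inv_mem hσ'), ?_⟩, h3, h1, ?_, h2⟩
      · rintro _ ⟨s, hs, rfl⟩
        change σ⁻¹ (s.2.2.2 * ((σ X) ^ (-((s.2.1 : ℕ) : ℤ)))⁻¹) = s.2.2.1
        have h5 : σ (s.2.2.1 * (X ^ (s.2.1 : ℕ))⁻¹) = s.2.2.2 := (h4 s hs).1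
        have h9 : s.2.2.2 * (σ X) ^ (s.2.1 : ℕ) = σ s.2.2.1 := by
          rw [← h5, map_mul, map_inv, map_pow, inv_mul_cancel_right]
        rw [zpow_neg, zpow_natCast, inv_inv, h9, MulAut.inv_apply_self]
      · rintro _ ⟨s, hs, rfl⟩
        change (τ * σ'⁻¹) (s.2.2.2 * ((σ' (c * X)) ^ ((s.1 : ℕ) : ℤ))⁻¹) = s.2.2.1
        have h5 : σ' (s.2.2.1 * (c * X) ^ (s.1 : ℕ)) = s.2.2.2 := (h4 s hs).2
        have h6 : τ s.2.2.1 = s.2.2.1 := h2 _ (Subgroup.subset_closure ⟨s, hs, rfl⟩)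
        have h9 : s.2.2.2 * ((σ' (c * X)) ^ (s.1 : ℕ))⁻¹ = σ' s.2.2.1 := by
          rw [← h5, map_mul, map_pow, mul_inv_cancel_right]
        rw [zpow_natCast, h9, MulAut.mul_apply, MulAut.inv_apply_self, h6]
      · change τ (c * σ⁻¹ (σ X)) = (τ * σ'⁻¹) (σ' (c * X))
        rw [MulAut.inv_apply_self, MulAut.mul_apply, MulAut.inv_apply_self]⟩
  left_inv v := by
    obtain ⟨⟨w, w', τ⟩, h1, h2, h3, h4, h5, h6⟩ := v
    apply Subtype.ext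
    refine Prod.ext (Prod.ext ?_ ?_) (Prod.ext (Prod.ext ?_ ?_) rfl)
    · change w.1⁻¹⁻¹ = w.1
      rw [inv_inv]
    · change w.1⁻¹ (w.1 w.2) = w.2
      rw [MulAut.inv_apply_self]
    · change τ * (w'.1⁻¹ * τ)⁻¹ = w'.1
      group
    · change (w'.1⁻¹ * τ) (c * w.1 w.2) = w'.2
      have h5' : τ (c * w.1 w.2) = w'.1 w'.2 := h5
      rw [MulAut.mul_apply, h5', MulAut.inv_apply_self]
  right_inv u := by
    obtain ⟨⟨τ, h1, h2⟩, ⟨⟨σ, hσ⟩, ⟨σ', hσ'⟩, X⟩, h3, h4⟩ := u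
    refine Prod.ext rfl (Subtype.ext (Prod.ext ?_ (Prod.ext ?_ ?_)))
    · apply Subtype.ext
      change σ⁻¹⁻¹ = σ
      rw [inv_inv]
    · apply Subtype.ext
      change (τ * σ'⁻¹)⁻¹ * τ = σ'
      group
    · change σ⁻¹ (σ X) = X
      rw [MulAut.inv_apply_self]

theorem card_TR [Finite V₀] (E₀ : Subgroup (MulAut V₀)) (c d : V₀) (L : Set (SO.SS n V₀)) :
    (TR E₀ c d L).ncard = Nat.card (St E₀ (pL L)) * N13 E₀ c d L := by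
  unfold N13
  rw [← Nat.card_coe_set_eq, Nat.card_congr (trE E₀ c d L), Nat.card_prod]
  rfl


theorem sum_TR [Finite V₀] [Fintype V₀] [Fintype (MulAut V₀)] (E₀ : Subgroup (MulAut V₀))
    (c d : V₀) (L : Set (SO.SS n V₀)) [Fintype (AA E₀ (Lm L))] [Fintype (AA E₀ (Lq L))]
    [DecidableEq V₀] :
    ∑ w ∈ (AA E₀ (Lm L)).toFinset, ∑ w' ∈ (AA E₀ (Lq L)).toFinset,
      (if w.2 = d * w'.2 then ({τ : MulAut V₀ | τ ∈ E₀ ∧ τ (c * w.1 w.2) = w'.1 w'.2 ∧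
        ∀ p ∈ pL L, τ p = p}.ncard : ℂ) else 0) = ((TR E₀ c d L).ncard : ℂ) := by
  classical
  have h0 : ((TR E₀ c d L).ncard : ℂ) = ∑ v, if v ∈ TR E₀ c d L then (1 : ℂ) else 0 :=
    SO.H59.ncard_ite (fun v => v ∈ TR E₀ c d L)
  rw [h0, Fintype.sum_prod_type]
  refine Finset.sum_subset_zero_on_sdiff (Finset.subset_univ _) ?_ ?_
  · intro w hw
    have hw' : w ∉ AA E₀ (Lm L) := fun h => (Finset.mem_sdiff.1 hw).2 (Set.mem_toFinset.2 h)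
    refine Finset.sum_eq_zero fun v _ => ?_
    rw [if_neg]
    intro h
    exact hw' h.1
  · intro w hw
    have hwA : w ∈ AA E₀ (Lm L) := Set.mem_toFinset.1 hw
    rw [Fintype.sum_prod_type]
    refine Finset.sum_subset_zero_on_sdiff (Finset.subset_univ _) ?_ ?_
    · intro w' hw'
      have hw'' : w' ∉ AA E₀ (Lq L) := fun h =>
        (Finset.mem_sdiff.1 hw').2 (Set.mem_toFinset.2 h)
      refine Finset.sum_eq_zero fun τ _ => ?_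
      rw [if_neg]
      intro h
      exact hw'' h.2.1
    · intro w' hw'
      have hwA' : w' ∈ AA E₀ (Lq L) := Set.mem_toFinset.1 hw'
      by_cases h1 : w.2 = d * w'.2
      · rw [if_pos h1]
        have h2 := SO.H59.ncard_ite (fun τ : MulAut V₀ => τ ∈ E₀ ∧
          τ (c * w.1 w.2) = w'.1 w'.2 ∧ ∀ p ∈ pL L, τ p = p)
        refine h2.trans (Finset.sum_congr rfl fun τ _ => ?_)
        refine if_congr ?_ rfl rfl
        constructor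
        · intro h
          exact ⟨hwA, hwA', h1, h⟩
        · intro h
          exact h.2.2.2
      · rw [if_neg h1]
        symm
        refine Finset.sum_eq_zero fun τ _ => ?_
        rw [if_neg]
        intro h
        exact h1 h.2.2.1

/-- `Rw` is invariant under `E₀` -/
theorem rw_map [Finite V₀] {E₀ : Subgroup (MulAut V₀)} {W : Subgroup V₀} (h : Rw E₀ W)
    {σ : MulAut V₀} (hσ : σ ∈ E₀) : Rw E₀ (W.map σ.toMonoidHom) := by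
  refine ⟨fun hb => h.1 ?_, fun τ hτ hf => ?_⟩
  · exact (Subgroup.map_eq_bot_iff_of_injective W (f := σ.toMonoidHom) σ.injective).1 hb
  · have h1 : σ⁻¹ * τ * σ = 1 := by
      refine h.2 _ (E₀.mul_mem (E₀.mul_mem (E₀.inv_mem hσ) hτ) hσ) fun w hw => ?_
      have h2 : τ (σ w) = σ w := hf (σ w) ⟨w, hw, rfl⟩
      rw [MulAut.mul_apply, MulAut.mul_apply, h2, MulAut.inv_apply_self]
    have h2 : τ = σ * (σ⁻¹ * τ * σ) * σ⁻¹ := by group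
    rw [h2, h1]
    group

theorem sup_shift {W : Subgroup V₀} {c : V₀} (hc : c ∈ W) (y : V₀) :
    W ⊔ Subgroup.zpowers (c * y) = W ⊔ Subgroup.zpowers y := by
  apply le_antisymm
  · refine sup_le le_sup_left ((Subgroup.zpowers_le).2 ?_)
    exact Subgroup.mul_mem _ (Subgroup.mem_sup_left hc)
      (Subgroup.mem_sup_right (Subgroup.mem_zpowers y))
  · refine sup_le le_sup_left ((Subgroup.zpowers_le).2 ?_)
    have h2 : c * y ∈ W ⊔ Subgroup.zpowers (c * y) :=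
      Subgroup.mem_sup_right (Subgroup.mem_zpowers _)
    have h3 : c⁻¹ ∈ W ⊔ Subgroup.zpowers (c * y) :=
      Subgroup.mem_sup_left (W.inv_mem hc)
    have h4 := Subgroup.mul_mem _ h3 h2
    rwa [inv_mul_cancel_left] at h4

theorem mem_iff_card [Finite V₀] (W : Subgroup V₀) (x : V₀) :
    x ∈ W ↔ Nat.card (W ⊔ Subgroup.zpowers x : Subgroup V₀) = Nat.card W := by
  constructor
  · intro h
    rw [sup_eq_left.2 ((Subgroup.zpowers_le).2 h)]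
  · intro h
    have h1 : W = W ⊔ Subgroup.zpowers x := Subgroup.eq_of_le_of_card_ge le_sup_left h.le
    rw [h1]
    exact Subgroup.mem_sup_right (Subgroup.mem_zpowers x)

theorem card_map_aut (W : Subgroup V₀) (σ : MulAut V₀) :
    Nat.card (W.map σ.toMonoidHom : Subgroup V₀) = Nat.card W :=
  (Nat.card_congr (W.equivMapOfInjective σ.toMonoidHom σ.injective).toEquiv).symm

end sets

section val

variable {ℓ : ℕ} [Fact ℓ.Prime] {M : Ideal (integralClosure ℤ ℂ)} [M.IsMaximal]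
  {V₀ G : Type} [CommGroup V₀] [Finite V₀] [Group G] [Finite G] {E₀ : Subgroup (MulAut V₀)}
  {B : Bk (FF M) V₀ G}

/-- the product of the factors -/
theorem fac (cjd : CjdStmt) (hM : (ℓ : integralClosure ℤ ℂ) ∈ M) (hℓ : ℓ ≠ 2)
    (hFr : Fq ℓ V₀ E₀) (hB : Sd ℓ M E₀ B) {W₁ W₂ : Subgroup V₀} (hW₂ : Rw E₀ W₂)
    {σ σ' τ : MulAut V₀} (hσ : σ ∈ E₀) (hσ' : σ' ∈ E₀) (hτ : τ ∈ E₀) {x x' c : V₀}
    (hm : (W₂ ⊔ Subgroup.zpowers x).map σ.toMonoidHom = W₁ ⊔ Subgroup.zpowers (σ x))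
    (hm' : (W₂ ⊔ Subgroup.zpowers x').map σ'.toMonoidHom = W₁ ⊔ Subgroup.zpowers (σ' x'))
    (hc : c ∈ W₁) (hf : ∀ p ∈ W₁, τ p = p) (he : τ (c * σ x) = σ' x') :
    ((ux B.U W₂ x : ℚ) : ℂ)⁻¹ * (Nat.card (B.C (W₂ ⊔ Subgroup.zpowers x)) : ℂ)⁻¹ *
      (((ux B.U W₂ x' : ℚ) : ℂ)⁻¹ * (Nat.card (B.C (W₂ ⊔ Subgroup.zpowers x')) : ℂ)⁻¹) *
      ((Nat.card (B.C (W₁ ⊔ Subgroup.zpowers (σ' x'))) : ℂ) *
        (ℓ ^ 2 * B.D (W₁ ⊔ Subgroup.zpowers (c * σ x)) ^ 2 /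
          Nat.card (B.C (W₁ ⊔ Subgroup.zpowers (c * σ x))))) =
      ℓ ^ 2 * ((B.D W₂ : ℂ) / Nat.card (B.C W₂)) ^ 2 := by
  classical
  rw [sup_shift hc, ← hm, ← hm']
  have hR : Rw E₀ (W₂ ⊔ Subgroup.zpowers x) := rw_mono hW₂ le_sup_left
  have hR' : Rw E₀ (W₂ ⊔ Subgroup.zpowers x') := rw_mono hW₂ le_sup_left
  -- `τ` maps the first group to the second one
  have hmt : (W₁ ⊔ Subgroup.zpowers (σ x)).map τ.toMonoidHom =
      W₁ ⊔ Subgroup.zpowers (σ' x') := by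
    rw [← sup_shift hc, Subgroup.map_sup]
    have h1 : W₁.map τ.toMonoidHom = W₁ := by
      ext p
      constructor
      · rintro ⟨q, hq, rfl⟩
        change τ q ∈ W₁
        rw [hf q hq]
        exact hq
      · intro hp
        exact ⟨p, hp, hf p hp⟩
    have h2 : (Subgroup.zpowers (c * σ x)).map τ.toMonoidHom = Subgroup.zpowers (σ' x') := by
      rw [← he]
      exact MonoidHom.map_zpowers _ _
    rw [h1, h2]
  obtain ⟨t, ht, hti⟩ := hB.sur σ hσ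
  have c1 := cjd ℓ M hM hℓ V₀ G E₀ hFr B hB.toSb σ hσ t ht hti (W₂ ⊔ Subgroup.zpowers x)
  obtain ⟨t', ht', hti'⟩ := hB.sur σ' hσ'
  have c2 := cjd ℓ M hM hℓ V₀ G E₀ hFr B hB.toSb σ' hσ' t' ht' hti' (W₂ ⊔ Subgroup.zpowers x')
  obtain ⟨s, hs, hsi⟩ := hB.sur τ hτ
  have c3 := cjd ℓ M hM hℓ V₀ G E₀ hFr B hB.toSb τ hτ s hs hsi
    ((W₂ ⊔ Subgroup.zpowers x).map σ.toMonoidHom)
  have n1 := c1.2.2.1
  have n2 := c2.2.2.1
  have n3 := c3.2.2.1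
  have d1 := (c1.2.2.2.2.2 hB hR).1
  have d2 := (c2.2.2.2.2.2 hB hR').1
  have d3 := (c3.2.2.2.2.2 hB (rw_map hR hσ)).1
  have hmm : ((W₂ ⊔ Subgroup.zpowers x).map σ.toMonoidHom).map τ.toMonoidHom =
      (W₂ ⊔ Subgroup.zpowers x').map σ'.toMonoidHom := by
    rw [hm, hmt, hm']
  rw [hmm] at n3 d3
  -- the signs
  have hep : ep B W₂ x = ep B W₂ x' := by
    unfold ep
    refine if_congr ?_ rfl rfl
    rw [mem_iff_card, mem_iff_card, ← card_map_aut (W₂ ⊔ Subgroup.zpowers x) σ,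
      ← card_map_aut ((W₂ ⊔ Subgroup.zpowers x).map σ.toMonoidHom) τ, hmm, card_map_aut]
  have hep2 : ep B W₂ x * ep B W₂ x' = 1 := by
    rw [← hep]
    unfold ep
    split_ifs
    · norm_num
    · exact S_sq hB hW₂
  have q1 := deg_quot hFr.cd hB hW₂ x
  have q2 := deg_quot hFr.cd hB hW₂ x'
  rw [n1, d1, n2]
  rw [n1, n2] at n3
  rw [d1, d2] at d3
  rw [n3, d3] at q2
  rw [n3]
  have u1 := ux_ne hB hW₂ x
  have u2 := ux_ne hB hW₂ x'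
  have e0 := (D_pos hB hW₂).ne'
  have e1 := (D_pos hB hR).ne'
  have e2 := (C_pos (B := B) (W₂ ⊔ Subgroup.zpowers x)).ne'
  have e3 := (C_pos (B := B) W₂).ne'
  generalize hep1' : ep B W₂ x = ε₁ at *
  generalize hep2' : ep B W₂ x' = ε₂ at *
  generalize hu1' : ux B.U W₂ x = υ₁ at *
  generalize hu2' : ux B.U W₂ x' = υ₂ at *
  generalize hD' : B.D (W₂ ⊔ Subgroup.zpowers x) = D' at *
  generalize hD2 : B.D W₂ = D₂ at *
  generalize hN' : Nat.card (B.C (W₂ ⊔ Subgroup.zpowers x)) = N' at *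
  generalize hN2 : Nat.card (B.C W₂) = N₂ at *
  have key : υ₁⁻¹ * (N' : ℚ)⁻¹ * (υ₂⁻¹ * (N' : ℚ)⁻¹) * ((N' : ℚ) * (ℓ ^ 2 * D' ^ 2 / N')) =
      ℓ ^ 2 * ((D₂ : ℚ) / N₂) ^ 2 := by
    have f1 : (υ₁ * N')⁻¹ * D' = ε₁ * (D₂ / N₂) := by
      have h1 : υ₁ * N' ≠ 0 := mul_ne_zero u1 e2
      have h2 : ε₁ * ε₁ = 1 := by
        rw [hep] at hep2 ⊢
        exact hep2
      rw [inv_mul_eq_iff_eq_mul₀ h1]
      field_simp
      linear_combination q1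
    have f2 : (υ₂ * N')⁻¹ * D' = ε₂ * (D₂ / N₂) := by
      have h1 : υ₂ * N' ≠ 0 := mul_ne_zero u2 e2
      rw [inv_mul_eq_iff_eq_mul₀ h1]
      field_simp
      linear_combination q2
    calc υ₁⁻¹ * (N' : ℚ)⁻¹ * (υ₂⁻¹ * (N' : ℚ)⁻¹) * ((N' : ℚ) * (ℓ ^ 2 * D' ^ 2 / N'))
        = ℓ ^ 2 * (((υ₁ * N')⁻¹ * D') * ((υ₂ * N')⁻¹ * D')) := by
          rw [mul_inv, mul_inv]
          field_simp
      _ = ℓ ^ 2 * ((D₂ : ℚ) / N₂) ^ 2 * (ε₁ * ε₂) := by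
          rw [f1, f2]
          ring
      _ = _ := by rw [hep2, mul_one]
  have key2 := congrArg (fun z : ℚ => (z : ℂ)) key
  push_cast at key2
  exact key2

end val

theorem mxa (w3c : W3cStmt) (smx : SmxStmt) (nsd : NsdStmt) (cjd : CjdStmt) (fud : FudStmt)
    (fcd : FcdStmt) : MxaStmt := by
  intro ℓ _ M _ hM hℓ V₀ G _ _ _ _ E₀ hFr B hB n m hPE c d L hc hne hRw
  classical
  have iG := Fintype.ofFinite G
  have iV := Fintype.ofFinite V₀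
  have iA := Fintype.ofFinite (MulAut V₀)
  have iL := Fintype.ofFinite (lin V₀)
  have hp : ℓ.Prime := Fact.out
  have hℓ0 : (ℓ : ℂ) ≠ 0 := by exact_mod_cast hp.ne_zero
  obtain ⟨b2, v2, -⟩ := nsd ℓ M hM hℓ V₀ G E₀ hFr B hB (qL L) hRw
  rw [w3c ℓ M hM hℓ V₀ G E₀ hFr B hB.toSb n m hPE c d L]
  rw [finsum_mem_eq_finite_toFinset_sum _ (SO.H79.ch_finite B (pL L))]
  simp only [finsum_mem_eq_finite_toFinset_sum _ (SO.H79.ch_finite B (qL L))]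
  -- notation
  obtain ⟨C₁, hC₁⟩ : ∃ z : ℂ, z = (Nat.card (B.C (pL L)) : ℂ) := ⟨_, rfl⟩
  obtain ⟨C₂, hC₂⟩ : ∃ z : ℂ, z = (Nat.card (B.C (qL L)) : ℂ) := ⟨_, rfl⟩
  obtain ⟨D₂, hD₂⟩ : ∃ z : ℂ, z = (B.D (qL L) : ℂ) := ⟨_, rfl⟩
  obtain ⟨k₁, hk₁⟩ : ∃ z : ℂ, z = (Nat.card (St E₀ (pL L)) : ℂ) := ⟨_, rfl⟩
  have nC₁ : C₁ ≠ 0 := by rw [hC₁]; exact_mod_cast Nat.card_pos.ne'
  have nC₂ : C₂ ≠ 0 := by rw [hC₂]; exact_mod_cast Nat.card_pos.ne'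
  have nD₂ : D₂ ≠ 0 := by
    rw [hD₂]
    have := (D_pos hB hRw).ne'
    exact_mod_cast this
  have nk₁ : k₁ ≠ 0 := by rw [hk₁]; exact_mod_cast Nat.card_pos.ne'
  obtain ⟨r, hr⟩ : ∃ r : V₀ → ℂ, ∀ x, r x = ((ux B.U (qL L) x : ℚ) : ℂ)⁻¹ *
    (Nat.card (B.C (qL L ⊔ Subgroup.zpowers x)) : ℂ)⁻¹ := ⟨_, fun _ => rfl⟩
  obtain ⟨K, hK⟩ : ∃ z : ℂ, z = C₁ * C₂ ^ 2 / (ℓ ^ 2 * D₂ * k₁) := ⟨_, rfl⟩
  have hKc : starRingEnd ℂ K = K := by
    rw [hK, hC₁, hC₂, hD₂, hk₁]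
    simp only [map_div₀, map_mul, map_pow, map_natCast]
  have hrc : ∀ x, starRingEnd ℂ (r x) = r x := by
    intro x
    have h1 : (((ux B.U (qL L) x : ℚ) : ℂ)) = ((((ux B.U (qL L) x : ℚ) : ℝ)) : ℂ) := by
      push_cast
      rfl
    rw [hr, map_mul, map_inv₀, map_inv₀, map_natCast, h1, Complex.conj_ofReal]
  -- the sums `SL`
  have hS1 : ∀ χ ∈ (SO.H79.ch_finite B (pL L)).toFinset,
      ∀ χ' ∈ (SO.H79.ch_finite B (qL L)).toFinset, SO.cv (fc B (pL L) c) χ * SL B m (Lm L) χ χ' =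
      K * ∑ w ∈ (AA E₀ (Lm L)).toFinset, r w.2 * (starRingEnd ℂ (lam B (qL L) χ' w.2) *
        VV B (pL L) (c * w.1 w.2) χ) := by
    intro χ hχ χ' hχ'
    rw [Set.Finite.mem_toFinset] at hχ hχ'
    have s1 := smx ℓ M hM hℓ V₀ G E₀ hFr B hB n m hPE (Lm L) (by rw [p2_Lm]; exact hRw) χ
      (by rw [p1_Lm]; exact hχ) χ' (by rw [p2_Lm]; exact hχ')
    rw [p1_Lm, p2_Lm, ← hC₁, ← hC₂, ← hD₂, ← hk₁, ← hK] at s1
    change SL B m (Lm L) χ χ' = K * ∑ᶠ w ∈ AA E₀ (Lm L),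
      starRingEnd ℂ (lam B (qL L) χ' w.2) / ((ux B.U (qL L) w.2 : ℚ) : ℂ) *
        (Nat.card (B.C (qL L ⊔ Subgroup.zpowers w.2)) : ℂ)⁻¹ * VV B (pL L) (w.1 w.2) χ at s1
    rw [s1, finsum_mem_eq_toFinset_sum, mul_left_comm, Finset.mul_sum]
    congr 1
    refine Finset.sum_congr rfl fun w _ => ?_
    rw [← vv_shift B (pL L) hc (w.1 w.2) hχ, hr]
    ring
  have hS2 : ∀ χ ∈ (SO.H79.ch_finite B (pL L)).toFinset,
      ∀ χ' ∈ (SO.H79.ch_finite B (qL L)).toFinset, starRingEnd ℂ (SL B m (Lq L) χ χ') =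
      K * ∑ w ∈ (AA E₀ (Lq L)).toFinset, r w.2 * (lam B (qL L) χ' w.2 *
        starRingEnd ℂ (VV B (pL L) (w.1 w.2) χ)) := by
    intro χ hχ χ' hχ'
    rw [Set.Finite.mem_toFinset] at hχ hχ'
    have s1 := smx ℓ M hM hℓ V₀ G E₀ hFr B hB n m hPE (Lq L) (by rw [p2_Lq]; exact hRw) χ
      (by rw [p1_Lq]; exact hχ) χ' (by rw [p2_Lq]; exact hχ')
    rw [p1_Lq, p2_Lq, ← hC₁, ← hC₂, ← hD₂, ← hk₁, ← hK] at s1
    change SL B m (Lq L) χ χ' = K * ∑ᶠ w ∈ AA E₀ (Lq L),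
      starRingEnd ℂ (lam B (qL L) χ' w.2) / ((ux B.U (qL L) w.2 : ℚ) : ℂ) *
        (Nat.card (B.C (qL L ⊔ Subgroup.zpowers w.2)) : ℂ)⁻¹ * VV B (pL L) (w.1 w.2) χ at s1
    rw [s1, finsum_mem_eq_toFinset_sum, map_mul, hKc, map_sum]
    congr 1
    refine Finset.sum_congr rfl fun w _ => ?_
    have h1 : starRingEnd ℂ (lam B (qL L) χ' w.2) / ((ux B.U (qL L) w.2 : ℚ) : ℂ) *
        (Nat.card (B.C (qL L ⊔ Subgroup.zpowers w.2)) : ℂ)⁻¹ * VV B (pL L) (w.1 w.2) χ =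
        r w.2 * (starRingEnd ℂ (lam B (qL L) χ' w.2) * VV B (pL L) (w.1 w.2) χ) := by
      rw [hr]
      ring
    rw [h1, map_mul, map_mul, hrc, Complex.conj_conj]
  -- the product
  have key : ∀ χ ∈ (SO.H79.ch_finite B (pL L)).toFinset,
      ∀ χ' ∈ (SO.H79.ch_finite B (qL L)).toFinset,
      SO.cv (fc B (pL L) c) χ * SO.cv (fc B (qL L) d) χ' *
        (SL B m (Lm L) χ χ' * starRingEnd ℂ (SL B m (Lq L) χ χ')) =
      K ^ 2 * ((ux B.U (qL L) d : ℚ) : ℂ) * ∑ w ∈ (AA E₀ (Lm L)).toFinset,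
        ∑ w' ∈ (AA E₀ (Lq L)).toFinset, (r w.2 * r w'.2) *
          ((VV B (pL L) (c * w.1 w.2) χ * starRingEnd ℂ (VV B (pL L) (w'.1 w'.2) χ)) *
          (lam B (qL L) χ' d * starRingEnd ℂ (lam B (qL L) χ' w.2) *
            lam B (qL L) χ' w'.2)) := by
    intro χ hχ χ' hχ'
    have h1 : SO.cv (fc B (pL L) c) χ * SO.cv (fc B (qL L) d) χ' *
        (SL B m (Lm L) χ χ' * starRingEnd ℂ (SL B m (Lq L) χ χ')) =
        SO.cv (fc B (qL L) d) χ' * ((SO.cv (fc B (pL L) c) χ * SL B m (Lm L) χ χ') *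
          starRingEnd ℂ (SL B m (Lq L) χ χ')) := by ring
    rw [h1, hS1 χ hχ χ' hχ', hS2 χ hχ χ' hχ', v2 χ' ((Set.Finite.mem_toFinset _).1 hχ')]
    have h2 : ∀ P Q : ℂ, ((ux B.U (qL L) d : ℚ) : ℂ) * lam B (qL L) χ' d *
        (K * P * (K * Q)) = K ^ 2 * ((ux B.U (qL L) d : ℚ) : ℂ) *
          (lam B (qL L) χ' d * (P * Q)) := fun P Q => by ring
    rw [h2, Finset.sum_mul_sum, Finset.mul_sum]
    congr 1
    refine Finset.sum_congr rfl fun w _ => ?_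
    rw [Finset.mul_sum]
    refine Finset.sum_congr rfl fun w' _ => ?_
    ring
  rw [Finset.sum_congr rfl fun χ hχ => Finset.sum_congr rfl fun χ' hχ' => key χ hχ χ' hχ']
  simp only [← Finset.mul_sum]
  -- interchange
  have h3 : ∑ χ ∈ (SO.H79.ch_finite B (pL L)).toFinset,
      ∑ χ' ∈ (SO.H79.ch_finite B (qL L)).toFinset, ∑ w ∈ (AA E₀ (Lm L)).toFinset,
        ∑ w' ∈ (AA E₀ (Lq L)).toFinset, (r w.2 * r w'.2) *
          ((VV B (pL L) (c * w.1 w.2) χ * starRingEnd ℂ (VV B (pL L) (w'.1 w'.2) χ)) *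
          (lam B (qL L) χ' d * starRingEnd ℂ (lam B (qL L) χ' w.2) *
            lam B (qL L) χ' w'.2)) =
      ∑ w ∈ (AA E₀ (Lm L)).toFinset, ∑ w' ∈ (AA E₀ (Lq L)).toFinset, (r w.2 * r w'.2) *
        ((∑ χ ∈ (SO.H79.ch_finite B (pL L)).toFinset,
          VV B (pL L) (c * w.1 w.2) χ * starRingEnd ℂ (VV B (pL L) (w'.1 w'.2) χ)) *
        ∑ χ' ∈ (SO.H79.ch_finite B (qL L)).toFinset,
          lam B (qL L) χ' d * starRingEnd ℂ (lam B (qL L) χ' w.2) * lam B (qL L) χ' w'.2) := by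
    have h4 : ∀ χ : G → ℂ, ∑ χ' ∈ (SO.H79.ch_finite B (qL L)).toFinset,
        ∑ w ∈ (AA E₀ (Lm L)).toFinset, ∑ w' ∈ (AA E₀ (Lq L)).toFinset, (r w.2 * r w'.2) *
          ((VV B (pL L) (c * w.1 w.2) χ * starRingEnd ℂ (VV B (pL L) (w'.1 w'.2) χ)) *
          (lam B (qL L) χ' d * starRingEnd ℂ (lam B (qL L) χ' w.2) *
            lam B (qL L) χ' w'.2)) =
        ∑ w ∈ (AA E₀ (Lm L)).toFinset, ∑ w' ∈ (AA E₀ (Lq L)).toFinset,
          ∑ χ' ∈ (SO.H79.ch_finite B (qL L)).toFinset, (r w.2 * r w'.2) *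
          ((VV B (pL L) (c * w.1 w.2) χ * starRingEnd ℂ (VV B (pL L) (w'.1 w'.2) χ)) *
          (lam B (qL L) χ' d * starRingEnd ℂ (lam B (qL L) χ' w.2) *
            lam B (qL L) χ' w'.2)) := by
      intro χ
      rw [Finset.sum_comm]
      exact Finset.sum_congr rfl fun w _ => Finset.sum_comm
    rw [Finset.sum_congr rfl fun χ _ => h4 χ, Finset.sum_comm]
    refine Finset.sum_congr rfl fun w _ => ?_
    rw [Finset.sum_comm]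
    refine Finset.sum_congr rfl fun w' _ => ?_
    rw [Finset.sum_mul_sum, Finset.mul_sum]
    refine Finset.sum_congr rfl fun χ _ => ?_
    rw [Finset.mul_sum]
  rw [h3]
  -- the sum over `χ'`
  have h5 : ∀ x x' : V₀, ∑ χ' ∈ (SO.H79.ch_finite B (qL L)).toFinset,
      lam B (qL L) χ' d * starRingEnd ℂ (lam B (qL L) χ' x) * lam B (qL L) χ' x' =
      if x = d * x' then (ℓ : ℂ) ^ 2 else 0 := by
    intro x x'
    rw [SO.H79.sum_lam B (qL L) b2 (fun f => f d * starRingEnd ℂ (f x) * f x')]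
    have h6 : ∀ f : lin V₀, f.1 d * starRingEnd ℂ (f.1 x) * f.1 x' = f.1 (d * x⁻¹ * x') := by
      intro f
      rw [SO.H79.lin_star f.2, f.2.2, f.2.2]
    rw [Finset.sum_congr rfl fun f _ => h6 f, SO.H79.lin_sum, hFr.cd]
    have h7 : d * x⁻¹ * x' = 1 ↔ x = d * x' := by
      rw [mul_right_comm, mul_inv_eq_one]
      exact eq_comm
    push_cast
    exact if_congr h7 rfl rfl
  -- the values
  have h8 : ∀ w ∈ (AA E₀ (Lm L)).toFinset, ∀ w' ∈ (AA E₀ (Lq L)).toFinset,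
      (r w.2 * r w'.2) * ((∑ χ ∈ (SO.H79.ch_finite B (pL L)).toFinset,
          VV B (pL L) (c * w.1 w.2) χ * starRingEnd ℂ (VV B (pL L) (w'.1 w'.2) χ)) *
        ∑ χ' ∈ (SO.H79.ch_finite B (qL L)).toFinset,
          lam B (qL L) χ' d * starRingEnd ℂ (lam B (qL L) χ' w.2) * lam B (qL L) χ' w'.2) =
      (ℓ : ℂ) ^ 2 * (ℓ ^ 2 * (D₂ / C₂) ^ 2) * (if w.2 = d * w'.2 then
        ({τ : MulAut V₀ | τ ∈ E₀ ∧ τ (c * w.1 w.2) = w'.1 w'.2 ∧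
        ∀ p ∈ pL L, τ p = p}.ncard : ℂ) else 0) := by
    intro w hw w' hw'
    have hwA : w ∈ AA E₀ (Lm L) := Set.mem_toFinset.1 hw
    have hwA' : w' ∈ AA E₀ (Lq L) := Set.mem_toFinset.1 hw'
    rw [h5]
    by_cases h1 : w.2 = d * w'.2
    · rw [if_pos h1, if_pos h1]
      have hm := map_AA hwA
      rw [p1_Lm, p2_Lm] at hm
      have hm' := map_AA hwA'
      rw [p1_Lq, p2_Lq] at hm'
      have hR : Rw E₀ (pL L ⊔ Subgroup.zpowers (c * w.1 w.2)) := by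
        rw [sup_shift hc, ← hm]
        exact rw_map (rw_mono hRw le_sup_left) hwA.1
      have hR' : Rw E₀ (pL L ⊔ Subgroup.zpowers (w'.1 w'.2)) := by
        rw [← hm']
        exact rw_map (rw_mono hRw le_sup_left) hwA'.1
      rw [orth nsd fud cjd fcd ℓ M hM hℓ V₀ G E₀ hFr B hB n m hPE (pL L) _ _ hR hR']
      by_cases h2 : ∃ τ : MulAut V₀, τ ∈ E₀ ∧ τ (c * w.1 w.2) = w'.1 w'.2 ∧ ∀ p ∈ pL L, τ p = p
      · obtain ⟨τ, t1, t2, t3⟩ := h2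
        have h9 := fac cjd hM hℓ hFr hB hRw hwA.1 hwA'.1 t1 hm hm' hc t3 t2
        rw [← hr, ← hr, ← hD₂, ← hC₂] at h9
        rw [← h9]
        ring
      · have h9 : {τ : MulAut V₀ | τ ∈ E₀ ∧ τ (c * w.1 w.2) = w'.1 w'.2 ∧
            ∀ p ∈ pL L, τ p = p} = ∅ := by
          ext τ
          constructor
          · intro h
            exact h2 ⟨τ, h⟩
          · intro h
            exact absurd h (Set.notMem_empty τ)
        rw [h9, Set.ncard_empty]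
        simp
    · rw [if_neg h1, if_neg h1]
      simp
  rw [Finset.sum_congr rfl fun w hw => Finset.sum_congr rfl fun w' hw' => h8 w hw w' hw']
  simp only [← Finset.mul_sum]
  rw [sum_TR, card_TR]
  unfold P13
  have h10 : ux B.U (pL L) c = 1 := if_pos hc
  rw [h10, ← hC₁, ← hC₂, hK]
  push_cast
  rw [← hk₁]
  field_simp

end Pool.Agent.PP.SD.H94
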